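import Pool.Agent.W982.TA.Grid

/-! Project TA, part I5: the signals match vertically. -/

set_option autoImplicit false

namespace Pool.Agent.W982.TA

open Pool.Agent.NPC

theorem i5_bsig_succ (φ : List Cl) (τ : ℕ → Bool) (i j : ℕ) :
    bsig φ τ (i + 1) j = (bsig φ τ i j || (decide (1 ≤ i) && inCl (litRow i) (clOf φ j) &&
      lval τ (litRow i))) := by
  unfold bsig
  rw [List.range_succ, List.any_append]
  simp

theorem i5_ty (φ : List Cl) {i j : ℕ} (h1 : 1 ≤ i) (h2 : i < nR φ - 1) (hj : 1 ≤ j) :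
    ty φ i j = if inCl (litRow i) (clOf φ j) then 1 else 0 := by
  unfold ty
  rw [if_neg (by omega), if_neg (by omega), if_neg (by omega)]

theorem i5_st (φ : List Cl) (τ : ℕ → Bool) {i j : ℕ} (h1 : 1 ≤ i) (h2 : i < nR φ - 1)
    (hj : 1 ≤ j) :
    st φ τ i j = (lval τ (litRow i)).toNat + 2 * (bsig φ τ i j).toNat := by
  unfold st
  rw [if_neg (by omega), if_neg (by omega)]

theorem i5_st0 (φ : List Cl) (τ : ℕ → Bool) {i : ℕ} (h1 : 1 ≤ i) (h2 : i < nR φ - 1) :
    st φ τ i 0 = (τ ((i - 1) / 2)).toNat := by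
  unfold st
  rw [if_neg (by omega), if_pos rfl]

theorem i5_vt (φ : List Cl) (τ : ℕ → Bool) {i j : ℕ} (x : ℕ) (h1 : 1 ≤ i) (h2 : i < nR φ - 1)
    (hj : 1 ≤ j) : vt (ty φ i j) (st φ τ i j) x = bsig φ τ (i + 1) j := by
  rw [i5_ty φ h1 h2 hj, i5_st φ τ h1 h2 hj, i5_bsig_succ]
  have h3 : decide (1 ≤ i) = true := by simpa using h1
  rw [h3]
  cases inCl (litRow i) (clOf φ j) <;> cases lval τ (litRow i) <;> cases bsig φ τ i j <;>
    simp [vt]

theorem i5_vb (φ : List Cl) (τ : ℕ → Bool) {i j : ℕ} (x : ℕ) (h1 : 1 ≤ i) (h2 : i < nR φ - 1)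
    (hj : 1 ≤ j) : vb (ty φ i j) (st φ τ i j) x = bsig φ τ i j := by
  rw [i5_ty φ h1 h2 hj, i5_st φ τ h1 h2 hj]
  cases inCl (litRow i) (clOf φ j) <;> cases lval τ (litRow i) <;> cases bsig φ τ i j <;>
    simp [vb]

theorem i5_vcT (φ : List Cl) {i j : ℕ} (x : ℕ) (h1 : 1 ≤ i) (h2 : i < nR φ - 1)
    (hj : 1 ≤ j) : vcT (ty φ i j) x = decide (x = 15 ∨ x = 16) := by
  rw [i5_ty φ h1 h2 hj]
  cases inCl (litRow i) (clOf φ j) <;> simp [vcT]

theorem i5_vcB (φ : List Cl) {i j : ℕ} (x : ℕ) (h1 : 1 ≤ i) (h2 : i < nR φ - 1)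
    (hj : 1 ≤ j) : vcB (ty φ i j) x = decide (x = 15 ∨ x = 16) := by
  rw [i5_ty φ h1 h2 hj]
  cases inCl (litRow i) (clOf φ j) <;> simp [vcB]

theorem i5_ty0 (φ : List Cl) (i : ℕ) : ty φ i 0 =
    if i = 0 then 5 else if i = nR φ - 1 then 7 else if i % 2 = 1 then 2 else 3 := by
  unfold ty
  rw [if_pos rfl]

theorem i5_ty00 (φ : List Cl) {j : ℕ} (hj : 1 ≤ j) : ty φ 0 j = 4 := by
  unfold ty
  rw [if_neg (by omega), if_pos rfl]

theorem i5_tyl (φ : List Cl) {i j : ℕ} (hj : 1 ≤ j) (hi : i = nR φ - 1) : ty φ i j = 6 := by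
  unfold ty
  have : nR φ = 6 * φ.length + 2 := rfl
  rw [if_neg (by omega), if_neg (by omega), if_pos hi]

/-- a true literal of the clause of column `j` gives a signal at the top -/
theorem i5_bsig_of (φ : List Cl) (τ : ℕ → Bool) (j : ℕ) (l : Lit ℕ) (h1 : inCl l (clOf φ j) = true)
    (h2 : τ l.2 = l.1) (h3 : l.2 < 3 * φ.length) : bsig φ τ (nR φ - 1) j = true := by
  have hn : nR φ = 6 * φ.length + 2 := rfl
  obtain ⟨s, u⟩ := l
  simp only at h2 h3
  have hex : ∃ i', 1 ≤ i' ∧ i' < nR φ - 1 ∧ litRow i' = (s, u) := by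
    cases s with
    | true =>
      refine ⟨2 * u + 1, by omega, by omega, ?_⟩
      unfold litRow
      have e1 : (2 * u + 1) % 2 = 1 := by omega
      have e2 : (2 * u + 1 - 1) / 2 = u := by omega
      rw [e2]
      simp
    | false =>
      refine ⟨2 * u + 2, by omega, by omega, ?_⟩
      unfold litRow
      have e2 : (2 * u + 2 - 1) / 2 = u := by omega
      rw [e2]
      simp
  obtain ⟨i', g1, g2, g3⟩ := hex
  unfold bsig
  rw [List.any_eq_true]
  refine ⟨i', List.mem_range.2 g2, ?_⟩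
  rw [g3, h1]
  have h4 : lval τ (s, u) = true := by
    unfold lval
    simpa using h2
  rw [h4]
  simpa using g1

theorem i5_top (φ : List Cl) (τ : ℕ → Bool) (hB : Bounded3 φ) (hS : SatBy φ τ) {j : ℕ}
    (hj : 1 ≤ j) (hj2 : j < nC φ) : bsig φ τ (nR φ - 1) j = true := by
  have hn : nC φ = φ.length + 1 := rfl
  have hlt : j - 1 < φ.length := by omega
  have hc : clOf φ j ∈ φ := by
    unfold clOf
    rw [List.getD_eq_getElem _ _ hlt]
    exact List.getElem_mem hlt
  obtain ⟨b1, b2, b3⟩ := hB _ hc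
  rcases hS _ hc with h | h | h
  · exact i5_bsig_of φ τ j _ (by simp [inCl]) h b1
  · exact i5_bsig_of φ τ j _ (by simp [inCl]) h b2
  · exact i5_bsig_of φ τ j _ (by simp [inCl]) h b3

theorem i5 : TaskI5 := by
  intro φ τ hB hS i hi j hj x
  have hn : nR φ = 6 * φ.length + 2 := rfl
  have hm : nC φ = φ.length + 1 := rfl
  by_cases hj0 : j = 0
  · subst hj0
    rw [i5_ty0, i5_ty0]
    by_cases hi0 : i = 0
    · subst hi0
      rw [if_pos rfl, if_neg (by omega)]
      by_cases h1 : 0 + 1 = nR φ - 1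
      · rw [if_pos h1]
        refine ⟨by simp [vcT, vcB], fun _ => by simp [vt, vb]⟩
      · rw [if_neg h1, if_pos (by omega)]
        refine ⟨by simp [vcT, vcB], fun _ => by simp [vt, vb]⟩
    · have a1 : ¬ (i = nR φ - 1) := by omega
      have a2 : ¬ (i + 1 = 0) := by omega
      rw [if_neg hi0, if_neg a1, if_neg a2]
      by_cases hodd : i % 2 = 1
      · have a3 : ¬ (i + 1 = nR φ - 1) := by omega
        have a4 : ¬ ((i + 1) % 2 = 1) := by omega
        rw [if_pos hodd, if_neg a3, if_neg a4]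
        rw [i5_st0 φ τ (by omega) (by omega), i5_st0 φ τ (by omega) (by omega)]
        have e : (i + 1 - 1) / 2 = (i - 1) / 2 := by omega
        rw [e]
        refine ⟨by simp [vcT, vcB], fun _ => by simp [vt, vb]⟩
      · rw [if_neg hodd]
        by_cases h1 : i + 1 = nR φ - 1
        · rw [if_pos h1]
          refine ⟨by simp [vcT, vcB], fun _ => by simp [vt, vb]⟩
        · have a5 : (i + 1) % 2 = 1 := by omega
          rw [if_neg h1, if_pos a5]
          refine ⟨by simp [vcT, vcB], fun _ => by simp [vt, vb]⟩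
  · have hj1 : 1 ≤ j := by omega
    have hlen : 1 ≤ φ.length := by omega
    by_cases hi0 : i = 0
    · subst hi0
      have h1 : (0 + 1) < nR φ - 1 := by omega
      rw [i5_ty00 φ hj1, i5_vcB φ x (le_refl 1) h1 hj1, i5_vb φ τ x (le_refl 1) h1 hj1]
      refine ⟨by simp [vcT], fun _ => ?_⟩
      simp [vt, bsig]
    · by_cases h1 : i + 1 = nR φ - 1
      · rw [i5_tyl φ hj1 h1, i5_vcT φ x (by omega) (by omega) hj1,
          i5_vt φ τ x (by omega) (by omega) hj1, h1, i5_top φ τ hB hS hj1 hj]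
        refine ⟨by simp [vcB], fun _ => by simp [vb]⟩
      · rw [i5_vcT φ x (by omega) (by omega) hj1, i5_vcB φ x (by omega) (by omega) hj1,
          i5_vt φ τ x (by omega) (by omega) hj1, i5_vb φ τ x (by omega) (by omega) hj1]
        exact ⟨rfl, fun _ => rfl⟩

end Pool.Agent.W982.TA
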